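import Pool.Agent.K1H53.BI.Plan5

/-!
# Minimum principle and the Green function of the ball
-/

set_option autoImplicit false

open Finset

namespace Pool.Agent.K1H83.BI5

open Pool.Agent.K1H53.BI

theorem t_MAXP : S_MAXP := by
  classical
  intro Λ f hf hb x₀ hx₀
  by_contra hneg
  rw [not_le] at hneg
  obtain ⟨y, hy, hmin⟩ := Finset.exists_min_image Λ f ⟨x₀, hx₀⟩
  have hy0 : f y < 0 := lt_of_le_of_lt (hmin x₀ hx₀) hneg
  obtain ⟨z, hz, hmax⟩ := Finset.exists_max_image (Λ.filter fun x => f x = f y) (fun x => x 0)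
    ⟨y, mem_filter.2 ⟨hy, rfl⟩⟩
  have hzΛ := (mem_filter.1 hz).1
  have hzf := (mem_filter.1 hz).2
  have hnb : ∀ e : Fin 3 × Bool, 0 ≤ f (z + dir e) - f z := by
    intro e
    by_cases he : z + dir e ∈ Λ
    · have := hmin _ he
      linarith
    · have := hb z hzΛ e he
      linarith
  have hsum : ∑ e : Fin 3 × Bool, (f (z + dir e) - f z) ≤ 0 := by
    have h1 := hf z hzΛ
    unfold av at h1
    rw [Finset.sum_sub_distrib, Finset.sum_const, Finset.card_univ]
    have h2 : Fintype.card (Fin 3 × Bool) = 6 := by simp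
    rw [h2, nsmul_eq_mul]
    push_cast
    linarith [(div_le_iff₀ (by norm_num : (0 : ℝ) < 6)).1 h1]
  have hz1 : f (z + dir (0, true)) - f z = 0 := by
    apply le_antisymm _ (hnb _)
    calc f (z + dir (0, true)) - f z ≤ ∑ e : Fin 3 × Bool, (f (z + dir e) - f z) :=
          Finset.single_le_sum (f := fun e : Fin 3 × Bool => f (z + dir e) - f z)
            (fun e _ => hnb e) (Finset.mem_univ _)
      _ ≤ 0 := hsum
  have hin : z + dir (0, true) ∈ Λ := by
    by_contra h
    have := hb z hzΛ _ h
    linarith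
  have h3 := hmax (z + dir (0, true)) (mem_filter.2 ⟨hin, by linarith⟩)
  have h4 : (z + dir (0, true)) 0 = z 0 + 1 := by
    simp [dir]
  rw [h4] at h3
  linarith

open Classical in
/-- Extension by zero. -/
noncomputable def ext (B : Finset V) (f : B → ℝ) (v : V) : ℝ := if h : v ∈ B then f ⟨v, h⟩ else 0

lemma ext_mem (B : Finset V) (f : B → ℝ) (v : V) (h : v ∈ B) : ext B f v = f ⟨v, h⟩ := by
  unfold ext
  rw [dif_pos h]

lemma ext_out (B : Finset V) (f : B → ℝ) (v : V) (h : v ∉ B) : ext B f v = 0 := by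
  unfold ext
  rw [dif_neg h]

lemma ext_add (B : Finset V) (f g : B → ℝ) (v : V) : ext B (f + g) v = ext B f v + ext B g v := by
  unfold ext
  split_ifs with h
  · rfl
  · simp

lemma ext_smul (B : Finset V) (c : ℝ) (f : B → ℝ) (v : V) : ext B (c • f) v = c * ext B f v := by
  unfold ext
  split_ifs with h
  · rfl
  · simp

/-- The Laplacian on the functions on `B`. -/
noncomputable def lap (B : Finset V) : (B → ℝ) →ₗ[ℝ] (B → ℝ) where
  toFun f := fun x => f x - av (ext B f) x.1
  map_add' f g := by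
    funext x
    simp only [av, ext_add, Pi.add_apply, Finset.sum_add_distrib]
    ring
  map_smul' c f := by
    funext x
    simp only [av, ext_smul, Pi.smul_apply, smul_eq_mul, RingHom.id_apply, ← Finset.mul_sum]
    ring

lemma lap_inj (h0 : S_MAXP) (B : Finset V) : Function.Injective (lap B) := by
  rw [injective_iff_map_eq_zero]
  intro f hf
  have h1 : ∀ x ∈ B, av (ext B f) x = ext B f x := by
    intro x hx
    have h2 := congrFun hf ⟨x, hx⟩
    have h3 : f ⟨x, hx⟩ - av (ext B f) x = 0 := h2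
    rw [ext_mem B f x hx]
    linarith
  have h2 : ∀ x ∈ B, 0 ≤ ext B f x :=
    h0 B (ext B f) (fun x hx => (h1 x hx).le) (fun x _ e he => (ext_out B f _ he).ge)
  have h3 : ∀ x ∈ B, 0 ≤ (fun v => - ext B f v) x := by
    apply h0 B (fun v => - ext B f v)
    · intro x hx
      have h4 : av (fun v => - ext B f v) x = - av (ext B f) x := by
        unfold av
        rw [Finset.sum_neg_distrib]
        ring
      rw [h4, h1 x hx]
    · intro x _ e he
      simp only [ext_out B f _ he, neg_zero, le_refl]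
  funext x
  have h4 := h2 x.1 x.2
  have h5 := h3 x.1 x.2
  simp only at h5
  have h6 : ext B f x.1 = f x := ext_mem B f x.1 x.2
  rw [h6] at h4 h5
  show f x = 0
  linarith

lemma dir_flip (e : Fin 3 × Bool) : dir (e.1, !e.2) = - dir e := by
  unfold dir
  rw [← Pi.single_neg]
  congr 1
  cases e.2 <;> simp

/-- Flip of the directions. -/
def flip : (Fin 3 × Bool) ≃ (Fin 3 × Bool) where
  toFun e := (e.1, !e.2)
  invFun e := (e.1, !e.2)
  left_inv e := by simp
  right_inv e := by simp

lemma sum_symm (B : Finset V) (f g : V → ℝ) (hf : ∀ x, x ∉ B → f x = 0)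
    (hg : ∀ x, x ∉ B → g x = 0) :
    ∑ u ∈ B, f u * av g u = ∑ u ∈ B, g u * av f u := by
  have h1 : ∀ (f g : V → ℝ), ∑ u ∈ B, f u * av g u =
      (∑ e : Fin 3 × Bool, ∑ u ∈ B, f u * g (u + dir e)) / 6 := by
    intro f g
    unfold av
    rw [Finset.sum_comm, Finset.sum_div]
    apply Finset.sum_congr rfl
    intro u _
    rw [← Finset.mul_sum]
    ring
  rw [h1 f g, h1 g f]
  congr 1
  rw [← Equiv.sum_comp flip (fun e => ∑ u ∈ B, g u * f (u + dir e))]
  apply Finset.sum_congr rfl
  intro e _
  have h2 : ∑ u ∈ B, f u * g (u + dir e) = ∑' u, f u * g (u + dir e) := by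
    rw [tsum_eq_sum]
    intro u hu
    rw [hf u hu, zero_mul]
  have h3 : ∑ u ∈ B, g u * f (u + dir (flip e)) = ∑' u, g u * f (u + dir (flip e)) := by
    rw [tsum_eq_sum]
    intro u hu
    rw [hg u hu, zero_mul]
  rw [h2, h3, ← Equiv.tsum_eq (Equiv.addRight (dir e)) (fun u => g u * f (u + dir (flip e)))]
  apply tsum_congr
  intro u
  have h4 : dir (flip e) = - dir e := dir_flip e
  rw [h4]
  simp only [Equiv.coe_addRight]
  rw [mul_comm, add_neg_cancel_right]

theorem t_GREEN : S_GREEN := by
  classical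
  intro h0 R
  have hsurj : Function.Surjective (lap (BR R)) :=
    LinearMap.injective_iff_surjective.1 (lap_inj h0 (BR R))
  choose g hg using fun y : BR R => hsurj (Pi.single y 1)
  have hout : ∀ x : V, R ^ 2 < nsq x → x ∉ BR R := by
    intro x hx h
    rw [mem_BR] at h
    omega
  have hcase : ∀ x : V, x ∈ BR R ∨ x ∉ BR R := fun x => em _
  set G : V → V → ℝ := fun x y => if h : y ∈ BR R then ext (BR R) (g ⟨y, h⟩) x else 0 with hG
  have hGin : ∀ x y (h : y ∈ BR R), G x y = ext (BR R) (g ⟨y, h⟩) x := by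
    intro x y h
    rw [hG]
    simp only [dif_pos h]
  have hGo : ∀ x y, y ∉ BR R → G x y = 0 := by
    intro x y h
    rw [hG]
    simp only [dif_neg h]
  have hGo' : ∀ x y, x ∉ BR R → G x y = 0 := by
    intro x y h
    by_cases hy : y ∈ BR R
    · rw [hGin x y hy, ext_out _ _ _ h]
    · exact hGo x y hy
  have heq : ∀ x y, x ∈ BR R → y ∈ BR R →
      av (fun x' => G x' y) x = G x y - if x = y then 1 else 0 := by
    intro x y hx hy
    have h1 := congrFun (hg ⟨y, hy⟩) ⟨x, hx⟩
    have h2 : g ⟨y, hy⟩ ⟨x, hx⟩ - av (ext (BR R) (g ⟨y, hy⟩)) x =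
        (Pi.single (⟨y, hy⟩ : BR R) (1 : ℝ) : BR R → ℝ) ⟨x, hx⟩ := h1
    have h3 : (fun x' => G x' y) = ext (BR R) (g ⟨y, hy⟩) := by
      funext x'
      exact hGin x' y hy
    have h4 : (Pi.single (⟨y, hy⟩ : BR R) (1 : ℝ) : BR R → ℝ) ⟨x, hx⟩ =
        if x = y then 1 else 0 := by
      rw [Pi.single_apply]
      simp only [Subtype.mk.injEq]
    rw [h3, hGin x y hy, ext_mem _ _ _ hx, ← h4]
    linarith
  refine ⟨G, ?_, ?_, ?_, ?_⟩
  · intro x y
    by_cases hy : y ∈ BR R
    · by_cases hx : x ∈ BR R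
      · apply h0 (BR R) (fun x' => G x' y)
        · intro x' hx'
          rw [heq x' y hx' hy]
          have : (0 : ℝ) ≤ if x' = y then 1 else 0 := by split_ifs <;> norm_num
          linarith
        · intro x' _ e he
          exact (hGo' _ y he).ge
        · exact hx
      · exact (hGo' x y hx).ge
    · exact (hGo x y hy).ge
  · intro x y
    by_cases hx : x ∈ BR R
    · by_cases hy : y ∈ BR R
      · have h1 := sum_symm (BR R) (fun u => G u x) (fun u => G u y) (fun u hu => hGo' u x hu)
          (fun u hu => hGo' u y hu)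
        have h2 : ∀ a b, a ∈ BR R → b ∈ BR R → ∑ u ∈ BR R, G u a * av (fun x' => G x' b) u =
            ∑ u ∈ BR R, G u a * G u b - G b a := by
          intro a b _ hb
          have h3 : ∀ u ∈ BR R, G u a * av (fun x' => G x' b) u =
              G u a * G u b - if u = b then G b a else 0 := by
            intro u hu
            rw [heq u b hu hb]
            split_ifs with h
            · rw [h]
              ring
            · ring
          rw [Finset.sum_congr rfl h3, Finset.sum_sub_distrib, Finset.sum_ite_eq' (BR R) b,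
            if_pos hb]
        have h3 : ∑ u ∈ BR R, G u x * av (fun x' => G x' y) u =
            ∑ u ∈ BR R, G u y * av (fun x' => G x' x) u := h1
        rw [h2 x y hx hy, h2 y x hy hx] at h3
        have h4 : ∑ u ∈ BR R, G u x * G u y = ∑ u ∈ BR R, G u y * G u x :=
          Finset.sum_congr rfl fun u _ => mul_comm _ _
        linarith
      · rw [hGo x y hy, hGo' y x hy]
    · rw [hGo' x y hx, hGo y x hx]
  · intro x y hx
    exact hGo' x y (hout x hx)
  · intro x y hx hy
    exact heq x y (mem_BR.2 hx) (mem_BR.2 hy)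

end Pool.Agent.K1H83.BI5
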